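import Mathlib
import Pool.Agent.Lib.MP_7aba48_co_CP.Main

set_option autoImplicit false

namespace Pool.Agent.Results.MP_7aba48_co.AdditiveBound

/-- For every `Δ`, every finite triangle-free graph with all degrees at most `Δ` can be properly
coloured from any lists of size at least `⌈Δ/2⌉ + 6`; size `⌈Δ/2⌉ + 5` suffices when `Δ ≥ 51`,
size `⌈Δ/2⌉ + 4` when `Δ ≥ 65`, and size `⌈Δ/2⌉ + 3` when `Δ ≥ 75`. -/
theorem result :
    ∀ (Δ : ℕ) (V : Type) [Fintype V] (G : SimpleGraph V), G.CliqueFree 3 →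
      (∀ v, (G.neighborSet v).ncard ≤ Δ) →
      ∀ (L : V → Finset ℕ) (e : ℕ),
        (e = 6 ∨ (e = 5 ∧ 51 ≤ Δ) ∨ (e = 4 ∧ 65 ≤ Δ) ∨ (e = 3 ∧ 75 ≤ Δ)) →
        (∀ v, (Δ + 1) / 2 + e ≤ (L v).card) →
        ∃ f : V → ℕ, (∀ v, f v ∈ L v) ∧ ∀ u v, G.Adj u v → f u ≠ f v := by
  intro Δ V _ G hG hdeg L e he hL
  refine Pool.Agent.MP_7aba48_co_CP.main G Δ hG hdeg L (fun v => le_trans ?_ (hL v))
  unfold Pool.Agent.MP_7aba48_co_CP.ex
  split_ifs <;> omega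

end Pool.Agent.Results.MP_7aba48_co.AdditiveBound
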