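import Mathlib
import Pool.Agent.Lib.MP_7aba48_co_CP.Main

set_option autoImplicit false

namespace Pool.Agent.Results.MP_7aba48_co.LargeDegree

/-- For every `Δ ≥ 85`, every finite triangle-free graph with all degrees at most `Δ` can be
properly coloured from any lists of size at least `⌈Δ/2⌉ + 2`. -/
theorem result :
    ∀ (Δ : ℕ), 85 ≤ Δ → ∀ (V : Type) [Fintype V] (G : SimpleGraph V), G.CliqueFree 3 →
      (∀ v, (G.neighborSet v).ncard ≤ Δ) →
      ∀ L : V → Finset ℕ, (∀ v, (Δ + 1) / 2 + 2 ≤ (L v).card) →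
        ∃ f : V → ℕ, (∀ v, f v ∈ L v) ∧ ∀ u v, G.Adj u v → f u ≠ f v := by
  intro Δ hΔ V _ G hG hdeg L hL
  refine Pool.Agent.MP_7aba48_co_CP.main G Δ hG hdeg L (fun v => le_trans ?_ (hL v))
  unfold Pool.Agent.MP_7aba48_co_CP.ex
  split_ifs <;> omega

end Pool.Agent.Results.MP_7aba48_co.LargeDegree
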