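import Pool.Agent.Lib.MP_7aba48_co_TK.Main

/-!
# Triangle-free graphs with maximum degree at most `3k` are `(2k+1)`-colourable
-/

namespace Pool.Agent.Results.MP_7aba48_co.ThirdsBound

open Pool.Agent.Lib.MP_7aba48_co_G5

universe u

/-- Every finite triangle-free simple graph with maximum degree at most `3k` is
`(2k+1)`-colourable; its vertices can be partitioned into an independent set (`f v = none`) and `k`
sets (`f v = some i`) inducing bipartite graphs of maximum degree at most two. -/
theorem result {V : Type u} [Fintype V] (G : SimpleGraph V) [DecidableRel G.Adj] (k : ℕ)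
    (hΔ : G.maxDegree ≤ 3 * k) (hT : G.CliqueFree 3) :
    G.Colorable (2 * k + 1) ∧ ∃ f : V → Option (Fin k),
      (∀ v w, f v = none → f w = none → ¬ G.Adj v w) ∧
      ∀ i : Fin k, (G.induce {v | f v = some i}).Colorable 2 ∧
        ∀ v, f v = some i → ((G.neighborFinset v).filter fun w => f w = some i).card ≤ 2 := by
  classical
  have h1 : NoTri G := by
    intro a b c hab hbc hac
    exact hT {a, b, c} (SimpleGraph.is3Clique_triple_iff.2 ⟨hab, hac, hbc⟩)
  have h2 : ∀ v, dg G v Finset.univ ≤ 3 * k := by
    intro v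
    have h3 : dg G v Finset.univ = G.degree v := by
      unfold dg
      rw [← SimpleGraph.card_neighborFinset_eq_degree]
      congr 1
      ext w
      simp
    rw [h3]
    exact (G.degree_le_maxDegree v).trans hΔ
  refine ⟨Pool.Agent.Lib.MP_7aba48_co_TK.colorable k h1 h2, ?_⟩
  obtain ⟨f, hf1, ⟨c, hf2⟩, hf3⟩ := Pool.Agent.Lib.MP_7aba48_co_TK.partition k h1 h2
  refine ⟨f, hf1, fun i => ⟨?_, fun v hv => ?_⟩⟩
  · have h3 := (SimpleGraph.Coloring.mk (G := G.induce {v | f v = some i})
      (fun v => c v.1) fun {v w} h => hf2 v.1 w.1 i v.2 w.2 h).colorable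
    rwa [Fintype.card_bool] at h3
  · refine le_trans (le_of_eq ?_) (hf3 v i hv)
    unfold dg
    congr 1
    ext w
    simp [and_comm]

end Pool.Agent.Results.MP_7aba48_co.ThirdsBound
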