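import Pool.Agent.Lib.MP_7aba48_co_HB.Blocks

/-!
# Triangle-free graphs with few edges between vertices of maximum degree
-/

namespace Pool.Agent.Results.MP_7aba48_co.TopVertices

open Pool.Agent.Lib.MP_7aba48_co_G5

universe u

/-- Let `G` be a finite triangle-free simple graph.
(1) If `2 ≤ r`, the maximum degree is at most `3r - 1` and no two vertices of degree `3r - 1` are
adjacent, then `G` is `2r`-colourable.
(2) If the maximum degree is at most eight and the vertices of degree eight induce a bipartite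
graph, then `G` is 6-colourable.
(3) If the maximum degree is at most five and the vertices of degree five induce a bipartite
graph, then `G` is 4-colourable. -/
theorem result {V : Type u} [Fintype V] (G : SimpleGraph V) [DecidableRel G.Adj]
    (hT : G.CliqueFree 3) :
    (∀ r : ℕ, 2 ≤ r → G.maxDegree ≤ 3 * r - 1 →
      (∀ v w, G.degree v = 3 * r - 1 → G.degree w = 3 * r - 1 → ¬ G.Adj v w) →
      G.Colorable (2 * r)) ∧
    (G.maxDegree ≤ 8 → (G.induce {v | G.degree v = 8}).Colorable 2 → G.Colorable 6) ∧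
    (G.maxDegree ≤ 5 → (G.induce {v | G.degree v = 5}).Colorable 2 → G.Colorable 4) := by
  classical
  have h1 : NoTri G := by
    intro a b c hab hbc hac
    exact hT {a, b, c} (SimpleGraph.is3Clique_triple_iff.2 ⟨hab, hac, hbc⟩)
  have h2 : ∀ v, dg G v Finset.univ = G.degree v := by
    intro v
    unfold dg
    rw [← SimpleGraph.card_neighborFinset_eq_degree]
    congr 1
    ext w
    simp
  have h3 : ∀ d, G.maxDegree ≤ d → ∀ v, dg G v Finset.univ ≤ d := by
    intro d hd v
    rw [h2]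
    exact (G.degree_le_maxDegree v).trans hd
  have h4 : ∀ d, (G.induce {v | G.degree v = d}).Colorable 2 → ∃ P : Finset V,
      ∀ v w, dg G v Finset.univ = d → dg G w Finset.univ = d → G.Adj v w →
        ¬ (v ∈ P ↔ w ∈ P) := by
    rintro d ⟨c⟩
    refine ⟨Finset.univ.filter fun v => ∃ h : G.degree v = d, c ⟨v, h⟩ = 0, ?_⟩
    intro v w hv hw hvw
    rw [h2] at hv hw
    have h5 : c ⟨v, hv⟩ ≠ c ⟨w, hw⟩ := c.valid hvw
    have h6 : (∃ h : G.degree v = d, c ⟨v, h⟩ = 0) ↔ c ⟨v, hv⟩ = 0 :=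
      ⟨fun ⟨_, h⟩ => h, fun h => ⟨hv, h⟩⟩
    have h7 : (∃ h : G.degree w = d, c ⟨w, h⟩ = 0) ↔ c ⟨w, hw⟩ = 0 :=
      ⟨fun ⟨_, h⟩ => h, fun h => ⟨hw, h⟩⟩
    simp only [Finset.mem_filter, Finset.mem_univ, true_and]
    rw [h6, h7]
    omega
  refine ⟨fun r hr hd hind => ?_, fun hd hc => ?_, fun hd hc => ?_⟩
  · obtain ⟨b, rfl⟩ : ∃ b, r = b + 2 := ⟨r - 2, by omega⟩
    have h8 := Pool.Agent.Lib.MP_7aba48_co_HB.colorable_indep h1 b
      (fun v => (h3 _ hd v).trans (by omega)) (fun v w hv hw => by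
        rw [h2] at hv hw
        exact hind v w (by omega) (by omega))
    exact h8.mono (by omega)
  · obtain ⟨P, hP⟩ := h4 8 hc
    exact Pool.Agent.Lib.MP_7aba48_co_HB.colorable_six h1 (h3 8 hd) P hP
  · obtain ⟨P, hP⟩ := h4 5 hc
    exact Pool.Agent.Lib.MP_7aba48_co_HB.colorable_four h1 (h3 5 hd) P hP

end Pool.Agent.Results.MP_7aba48_co.TopVertices
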